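import Pool.Agent.Q173.PT.Linear

/-!
# Positive scalar curvature on closed aspherical manifolds and sublinear bounds
-/

set_option autoImplicit false

open Pool.Agent.Q173.PT

namespace Pool.Agent.Results.MP_df705a_gt.SublinearScalar

universe u

theorem result {V : Type u} (G : ScalData V) (hG : G.IsKnown) :
    (G.NoPositive ↔ ∀ ε : ℝ, 0 < ε → ∀ B : ℕ, ∃ n, B ≤ n ∧
      ∀ M, G.dim M = n → G.scal M ≤ ε * n) ∧
    (G.NoPositive ↔ ∀ K B : ℕ, ∃ n, B ≤ n ∧
      ∀ M, G.dim M = n → n ≤ G.cup M + K → G.scal M ≤ 1 / ((K : ℝ) + 1)) :=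
  hG.criteria

end Pool.Agent.Results.MP_df705a_gt.SublinearScalar
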